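import Pool.Agent.Y714.KG.Bs

set_option autoImplicit false
set_option linter.unusedSectionVars false
set_option linter.unusedVariables false

/-! Project KH: all degrees (even and odd), over a number field. Statements. -/

namespace Pool.Agent.Y714.KH

open Pool.Agent.Y714.KE (Al FA FU Em Ux dg cf cp vc cn nA sm un SYM QY tt)
open Pool.Agent.Y714.KF (FI sp ct nm pm ext br ubas qf)
open Pool.Agent.Y714.KG
open NumberField FractionalIdeal Module Finset ComplexConjugate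
open scoped nonZeroDivisors

/-- BAL: balancing by a unit -/
def S_BAL : Prop := ∀ (K : Type) [Field K] [NumberField K], ∃ C : ℝ, 0 < C ∧
  ∀ L : (K →+* ℂ) → ℝ, (∀ σ, L (ComplexEmbedding.conjugate σ) = L σ) →
    ∃ u : (𝓞 K)ˣ, ∀ σ : K →+* ℂ, Real.log ‖σ ((u : 𝓞 K) : K)‖ + L σ ≤
      (∑ τ, L τ) / finrank ℚ K + C

/-- SUMC: summation over the cells (Mathlib only) -/
def S_SUMC : Prop := ∀ (s : Type) [Fintype s] [DecidableEq s] (n e : s → ℕ) (d : ℕ) (t A : ℝ),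
  0 < d → (∀ i, 0 < n i) → (∀ i, 0 < e i) → (∀ i, 2 * e i < ∑ j, n j * e j) → 0 < t →
  (∀ i, 0 ≤ t * e i - 2 ∧ 2 * (t * e i - 2) ≤ ∑ j, (n j : ℝ) * (t * e j - 2)) →
  ∃ C : ℝ, 0 < C ∧ ∀ L : ℝ, 0 ≤ L → ∃ Z : Finset (s → ℤ),
    (∀ y : s → ℤ, (∀ i, 2 ≤ n i → -A ≤ y i) → (∀ i j, i ≠ j → -A ≤ (y i : ℝ) + y j) →
      ∑ i, (d : ℝ) * n i * e i * y i ≤ L → y ∈ Z) ∧
    ∑ y ∈ Z, Real.exp (2 * ∑ i, (d : ℝ) * n i * y i) ≤
      C * Real.exp (t * L) * (1 + L) ^ (Fintype.card s - 1)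

section

variable (F : Type) [Field F] [NumberField F] {s : Type} [Fintype s] [DecidableEq s]
  (K : s → Type) [∀ i, Field (K i)] [∀ i, NumberField (K i)] [∀ i, Algebra F (K i)]

variable {K} in
/-- lattices with bounded brackets -/
def LC (I : FA K) (C₁ : ℝ) (y : s → ℝ) : Set (Set (Al K)) :=
  {M | ∃ P : Al K × Al K, M = LF F P ∧ (∀ i, cn P i ≤ I i) ∧ NDF F P ∧
    ∀ e f : Em K, rs F e = rs F f → ‖br (vc P e) (vc P f)‖ ≤ C₁ * Real.exp (y e.1 + y f.1)}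

/-- T1G: the number of lattices with bounded brackets (no parity condition) -/
def S_T1G : Prop := 3 ≤ dF F K → ∀ (I : FU K) (C₁ : ℝ), ∃ C : ℝ, 0 < C ∧ ∀ y : s → ℝ,
  (LC F (cf I) C₁ y).Finite ∧ ((LC F (cf I) C₁ y).ncard : ℝ) ≤ C * tt (K := K) y

end

end Pool.Agent.Y714.KH
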