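import Pool.Agent.Y714.KH.Fin
import Pool.Agent.Y794.KW.Du
import Pool.Agent.Y77.KG.CRD
import Pool.Agent.Y77.KG.NIF
import Pool.Agent.Y812.KG.Mk
import Pool.Agent.Y480.KG.Rdf
import Pool.Agent.Y672.KH.T1G
import Pool.Agent.Y492.KH.Sumc
import Pool.Agent.Y406.KH.Bal

set_option autoImplicit false

/-! Project KH: the final statement. Duality by helper794; fibres, lattices and integrality of norms
by helper77; Minkowski's theorem by helper812; reduction of lattices by helper480; the number of
lattices by helper672, from the proof by helper146; summation over the cells by helper492;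
balancing by units by helper406. -/

namespace Pool.Agent.Y714.KH

open Pool.Agent.Y714.KG
open NumberField Module

theorem final (F : Type) [Field F] [NumberField F] {s : Type} [Fintype s] [DecidableEq s]
    (K : s → Type) [∀ i, Field (K i)] [∀ i, NumberField (K i)] [∀ i, Algebra F (K i)]
    (hn : 5 ≤ dF F K) (e : s → ℕ)
    (he : ∀ i, 0 < e i) (h2e : ∀ i, 2 * e i < ∑ j, finrank F (K j) * e j) :
    ∃ C : ℝ, ∀ T : ℝ, 1 ≤ T → (PT F K e T).Finite ∧
      ((PT F K e T).ncard : ℝ) ≤
        C * T ^ fujF F K e * (1 + Real.log T) ^ (Fintype.card s - 1) := by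
  have hCRD : S_CRD F K := Y77.KG.crd F K
  have hRDF : S_RDF F K := Y480.KG.rdf F K Y812.KG.mk hCRD
  exact main Y794.KW.du hCRD (Y77.KG.nif F K) (Y421.KE.cls K) (Y77.KG.inj F K hCRD)
    Y406.KH.bal (Y672.KH.t1g hRDF hCRD) Y492.KH.sumc hn e he h2e

end Pool.Agent.Y714.KH
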