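import Pool.Agent.Y714.KH.Key

set_option autoImplicit false
set_option linter.unusedSectionVars false
set_option linter.unusedVariables false

/-! Project KH: the count. -/

namespace Pool.Agent.Y714.KH

open Pool.Agent.Y714.KE (Al FA FU Em Ux dg cf cp vc cn nA sm un SYM QY tt vc_sm cn_sm cn_ne nA_pos
  nA_mul sm_sm S_CLS)
open Pool.Agent.Y714.KF (FI sp ct nm pm ext br ubas qf)
open Pool.Agent.Y714.KW (Mon S_DU)
open Pool.Agent.Y714.KG
open NumberField FractionalIdeal Module Finset ComplexConjugate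
open scoped nonZeroDivisors

section

variable {F : Type} [Field F] [NumberField F] {s : Type} [Fintype s] [DecidableEq s]
  {K : s → Type} [∀ i, Field (K i)] [∀ i, NumberField (K i)] [∀ i, Algebra F (K i)]

theorem main (hDU : S_DU) (hCRD : S_CRD F K) (hNI : S_NIF F K) (hCLS : S_CLS K)
    (hINJ : S_INJ F K) (hBAL : S_BAL) (hT1G : S_T1G F K) (hSUMC : S_SUMC)
    (hn : 5 ≤ dF F K) (e : s → ℕ)
    (he : ∀ i, 0 < e i) (h2e : ∀ i, 2 * e i < ∑ j, finrank F (K j) * e j) :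
    ∃ C : ℝ, ∀ T : ℝ, 1 ≤ T → (PT F K e T).Finite ∧
      ((PT F K e T).ncard : ℝ) ≤
        C * T ^ fujF F K e * (1 + Real.log T) ^ (Fintype.card s - 1) := by
  classical
  obtain ⟨w₀⟩ : Nonempty (F →+* ℂ) := inferInstance
  have hcard : 4 ≤ Fintype.card (Ef F K w₀) := by rw [hCRD.2.1]; omega
  obtain ⟨hf0, hf1⟩ := ML.fuj_mem (fun a : Ef F K w₀ => e a.1.1) (fun a => he a.1.1)
    (fun a => by rw [sum_EfN hCRD w₀ e]; exact h2e a.1.1) hcard
  rw [fujF_eq hCRD] at hf0 hf1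
  have hE : EffF F K fun i => fujF F K e * e i - 2 :=
    (effF_iff hCRD w₀ fun i => fujF F K e * e i - 2).1 hf1
  obtain ⟨f, hf⟩ : ∃ f : ℝ, f = fujF F K e := ⟨_, rfl⟩
  rw [← hf] at hE hf0 ⊢
  have hs : Nonempty s := by
    by_contra hcon
    rw [not_nonempty_iff] at hcon
    have : dF F K = 0 := by unfold dF; exact sum_eq_zero fun i _ => (hcon.false i).elim
    omega
  obtain ⟨i₀⟩ := hs
  have hfpos : 0 < f := by
    by_contra hcon
    have h1 : f = 0 := le_antisymm (not_lt.1 hcon) hf0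
    have h2 := (hE i₀).1
    rw [h1] at h2
    linarith
  have hfin1 : ∀ i, 0 < finrank F (K i) := by
    intro i
    by_contra hcon
    have h2 : finrank F (K i) = 0 := by omega
    have h3 := hCRD.2.2 i
    rw [h2, mul_zero] at h3
    exact (finrank_pos (R := ℚ) (M := K i)).ne' h3
  obtain ⟨R, hR, -⟩ := hCLS
  choose C₁ A C' hkey using fun r : FU K => key hDU hCRD hNI hBAL e he (fun i => (h2e i).le) r
  choose Cr hCr0 hCr using fun r : FU K => hT1G (by omega) r (C₁ r)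
  choose Cz hCz0 hCz using fun r : FU K => hSUMC s (fun i => finrank F (K i)) e (finrank ℚ F) f
    (A r) (finrank_pos (R := ℚ) (M := F)) hfin1 he h2e hfpos hE
  obtain ⟨D, hD⟩ : ∃ D : FU K → ℝ, D = fun r =>
    ∏ i, ((nm (r i : FI (K i)) : ℚ) : ℝ) ^ (2 * e i) := ⟨_, rfl⟩
  have hDpos : ∀ r, 0 < D r := fun r => by
    rw [hD]
    refine prod_pos fun i _ => pow_pos ?_ _
    have := KF.nm_pos (r i).ne_zero
    exact_mod_cast this
  obtain ⟨E, hEdef⟩ : ∃ E : FU K → ℝ, E = fun r => |C' r| + |(1 / 2) * Real.log (2 * D r)| :=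
    ⟨_, rfl⟩
  have hE0 : ∀ r, 0 ≤ E r := fun r => by rw [hEdef]; positivity
  -- the points give lattices
  have hmap : ∀ T : ℝ, 1 ≤ T → ∀ D' ∈ PT F K e T, ∃ Q : Al K × Al K, NDF F Q ∧
      D' = {P' | EqF F Q P'} ∧ ∃ r ∈ R, ∃ y : s → ℤ,
        (∀ i, 2 ≤ finrank F (K i) → -(A r) ≤ (y i : ℝ)) ∧
        (∀ i j, i ≠ j → -(A r) ≤ (y i : ℝ) + y j) ∧
        ∑ i, (finrank ℚ F : ℝ) * finrank F (K i) * e i * y i ≤ Real.log T + E r ∧
        LF F Q ∈ LC F (cf r) (C₁ r) (fun i => (y i : ℝ)) := by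
    rintro T hT D' ⟨P, hnd, hD', hh⟩
    have hT0 : 0 < T := by linarith
    have hlt : hdF F (fun i => 2 * e i) P < 2 * T ^ 2 := by nlinarith
    obtain ⟨ρ, ⟨a, b, c, d, hdet, rfl⟩, hρ⟩ := exists_lt_of_csInf_lt
      (s := {r : ℝ | ∃ a b c d : F, a * d - b * c ≠ 0 ∧
        r = hsF F (fun i => 2 * e i) (glF F a b c d P)}) ⟨_, 1, 0, 0, 1, by simp, rfl⟩ hlt
    obtain ⟨P₁, hP₁⟩ : ∃ P₁, P₁ = glF F a b c d P := ⟨_, rfl⟩
    rw [← hP₁] at hρ
    have hnd1 : NDF F P₁ := by rw [hP₁]; exact hnd.glF hdet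
    have hcn : ∀ i, cn P₁ i ≠ 0 := cn_ne (hnd1.ne hCRD (by omega))
    obtain ⟨r, hr, x, hx⟩ := hR (fun i => Units.mk0 (cn P₁ i) (hcn i))
    have hx0 : ∀ i, x i ≠ 0 := fun i => (hx i).1
    have hxi : ∀ i, x⁻¹ i ≠ 0 := fun i => inv_ne_zero (hx0 i)
    have hcn2 : cn (sm x⁻¹ P₁) = cf r := by
      rw [cn_sm]
      funext i
      have h1 := (hx i).2
      rw [Units.val_mk0] at h1
      rw [h1, ← mul_assoc, ← KF.sp_mul]
      have : x⁻¹ i * x i = 1 := inv_mul_cancel₀ (hx0 i)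
      rw [this]
      simp [cf]
    obtain ⟨P₂, hP₂⟩ : ∃ P₂, P₂ = sm x⁻¹ P₁ := ⟨_, rfl⟩
    rw [← hP₂] at hcn2
    have hnd2 : NDF F P₂ := by rw [hP₂]; exact hnd1.sm hxi
    obtain ⟨hsz0, u, y, hy1, hy2, hy3, hy4⟩ := hkey r P₂
      (fun i => by rw [hcn2]; exact le_rfl) hnd2
    have hun : ∀ i, un u i ≠ 0 := Y977.KE.un_ne u
    have hsz : szF F (fun i => 2 * e i) (vc P₂) = hsF F (fun i => 2 * e i) P₂ * D r := by
      unfold hsF
      rw [hcn2, hD]
      refine (div_mul_cancel₀ _ ?_).symm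
      have := (hDpos r).ne'
      rw [hD] at this
      exact this
    have hsz2 : szF F (fun i => 2 * e i) (vc P₂) ≤ 2 * T ^ 2 * D r := by
      rw [hsz, hP₂, hsF_sm _ hxi]
      exact mul_le_mul_of_nonneg_right hρ.le (hDpos r).le
    have hlog : (1 / 2) * Real.log (szF F (fun i => 2 * e i) (vc P₂)) ≤
        Real.log T + (1 / 2) * Real.log (2 * D r) := by
      have h1 := Real.log_le_log hsz0 hsz2
      have h2 : 2 * T ^ 2 * D r = T ^ 2 * (2 * D r) := by ring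
      rw [h2, Real.log_mul (by positivity) (by have := hDpos r; positivity), Real.log_pow] at h1
      push_cast at h1
      linarith
    refine ⟨sm (un u) P₂, hnd2.sm hun, ?_, r, hr, y, hy2, hy3, ?_, sm (un u) P₂, rfl, ?_, hnd2.sm hun,
      hy1⟩
    · rw [hD', hP₂, hP₁]
      refine EqF.cls_eq ?_
      exact ((EqF.gl P hdet).trans (EqF.smul _ hxi)).trans (EqF.smul _ hun)
    · refine hy4.trans ?_
      rw [hEdef]
      simp only
      have h1 := le_abs_self (C' r)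
      have h2 := le_abs_self ((1 / 2) * Real.log (2 * D r))
      linarith
    · intro i
      rw [Y977.KE.cn_un, hcn2]
  obtain ⟨M, hM⟩ : ∃ M : FU K → ℝ, M = fun r => Cr r * (Cz r * Real.exp (f * E r) *
    (1 + E r) ^ (Fintype.card s - 1)) := ⟨_, rfl⟩
  refine ⟨∑ r ∈ R, M r, fun T hT => ?_⟩
  have hT0 : 0 < T := by linarith
  have hlogT : 0 ≤ Real.log T := Real.log_nonneg hT
  choose Z hZ1 hZ2 using fun r : FU K => hCz r (Real.log T + E r) (add_nonneg hlogT (hE0 r))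
  obtain ⟨U, hU⟩ : ∃ U : Set (Set (Al K)), U = ⋃ q ∈ R.sigma Z,
    LC F (cf q.1) (C₁ q.1) (fun i => (q.2 i : ℝ)) := ⟨_, rfl⟩
  have hUfin : U.Finite := by
    rw [hU]
    exact Set.Finite.biUnion (R.sigma Z).finite_toSet fun q _ => (hCr q.1 _).1
  have hch : ∀ D' : Set (Al K × Al K), ∃ M : Set (Al K), D' ∈ PT F K e T →
      ∃ Q : Al K × Al K, NDF F Q ∧ D' = {P' | EqF F Q P'} ∧ M = LF F Q ∧ M ∈ U := by
    intro D'
    by_cases hD' : D' ∈ PT F K e T
    · obtain ⟨Q, h1, h2, r, hr, y, h3, h4, h5, h6⟩ := hmap T hT D' hD'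
      refine ⟨LF F Q, fun _ => ⟨Q, h1, h2, rfl, ?_⟩⟩
      rw [hU, Set.mem_iUnion₂]
      exact ⟨⟨r, y⟩, mem_sigma.2 ⟨hr, hZ1 r y h3 h4 h5⟩, h6⟩
    · exact ⟨∅, fun h => absurd h hD'⟩
  choose g hg using hch
  have hmaps : ∀ D' ∈ PT F K e T, g D' ∈ U := by
    intro D' hD'
    obtain ⟨Q, h1, h2, h3, h4⟩ := hg D' hD'
    exact h4
  have hinj : Set.InjOn g (PT F K e T) := by
    intro D' hD' D'' hD'' h
    obtain ⟨Q, h1, h2, h3, h4⟩ := hg D' hD'
    obtain ⟨Q', h1', h2', h3', h4'⟩ := hg D'' hD''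
    rw [h2, h2']
    exact EqF.cls_eq (hINJ (by omega) Q Q' h1 h1' (by rw [← h3, ← h3', h]))
  refine ⟨Set.Finite.of_injOn hmaps hinj hUfin, ?_⟩
  have h1 : (PT F K e T).ncard ≤ ∑ q ∈ R.sigma Z,
      (LC F (cf q.1) (C₁ q.1) (fun i => (q.2 i : ℝ))).ncard := by
    refine (Set.ncard_le_ncard_of_injOn g hmaps hinj hUfin).trans ?_
    rw [hU]
    exact ncard_biUnion_le _ _
  have h2 : ((PT F K e T).ncard : ℝ) ≤ ∑ q ∈ R.sigma Z,
      ((LC F (cf q.1) (C₁ q.1) (fun i => (q.2 i : ℝ))).ncard : ℝ) := by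
    exact_mod_cast h1
  refine h2.trans ?_
  rw [sum_sigma, sum_mul, sum_mul]
  refine sum_le_sum fun r _ => ?_
  have h3 : ∑ y ∈ Z r, ((LC F (cf r) (C₁ r) (fun i => (y i : ℝ))).ncard : ℝ) ≤
      ∑ y ∈ Z r, Cr r * Real.exp (2 * ∑ i, (finrank ℚ F : ℝ) * finrank F (K i) * y i) := by
    refine sum_le_sum fun y _ => ((hCr r _).2).trans (le_of_eq ?_)
    unfold KE.tt
    congr 3
    refine sum_congr rfl fun i _ => ?_
    rw [hCRD.2.2 i]
    push_cast
    ring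
  refine h3.trans ?_
  rw [← mul_sum]
  have h4 := mul_le_mul_of_nonneg_left (hZ2 r) (hCr0 r).le
  refine h4.trans ?_
  have h5 : Real.exp (f * (Real.log T + E r)) = T ^ f * Real.exp (f * E r) := by
    rw [mul_add, Real.exp_add, Real.rpow_def_of_pos hT0, mul_comm f (Real.log T)]
  have h6 : (1 + (Real.log T + E r)) ^ (Fintype.card s - 1) ≤
      ((1 + E r) * (1 + Real.log T)) ^ (Fintype.card s - 1) := by
    refine pow_le_pow_left₀ (by have := hE0 r; linarith) ?_ _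
    have := mul_nonneg (hE0 r) hlogT
    linarith
  rw [h5, hM]
  simp only
  calc Cr r * (Cz r * (T ^ f * Real.exp (f * E r)) *
        (1 + (Real.log T + E r)) ^ (Fintype.card s - 1))
      ≤ Cr r * (Cz r * (T ^ f * Real.exp (f * E r)) *
        ((1 + E r) * (1 + Real.log T)) ^ (Fintype.card s - 1)) := by
        refine mul_le_mul_of_nonneg_left (mul_le_mul_of_nonneg_left h6 ?_) (hCr0 r).le
        have := hCz0 r
        have := Real.rpow_nonneg hT0.le f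
        positivity
    _ = _ := by rw [mul_pow]; ring

end

end Pool.Agent.Y714.KH
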