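import Pool.Agent.Y714.KH.Stm
import Pool.Agent.Y714.KG.Fin

set_option autoImplicit false
set_option linter.unusedSectionVars false
set_option linter.unusedVariables false

/-! Project KH: the sizes of a point. -/

namespace Pool.Agent.Y714.KH

open Pool.Agent.Y714.KE (Al FA FU Em Ux dg cf cp vc cn nA sm un SYM QY tt vc_sm cn_sm cn_ne nA_pos
  nA_mul sm_sm S_CLS)
open Pool.Agent.Y714.KF (FI sp ct nm pm ext br ubas qf)
open Pool.Agent.Y714.KW (Mon S_DU)
open Pool.Agent.Y714.KG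
open NumberField FractionalIdeal Module Finset ComplexConjugate
open scoped nonZeroDivisors

section

variable {F : Type} [Field F] [NumberField F] {s : Type} [Fintype s] [DecidableEq s]
  {K : s → Type} [∀ i, Field (K i)] [∀ i, NumberField (K i)] [∀ i, Algebra F (K i)]

/-- the conjugate homomorphism -/
noncomputable def cE (a : Em K) : Em K := ⟨a.1, ComplexEmbedding.conjugate a.2⟩

theorem norm_br_cE (P : Al K × Al K) (a b : Em K) :
    ‖br (vc P (cE a)) (vc P (cE b))‖ = ‖br (vc P a) (vc P b)‖ := by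
  have h : br (vc P (cE a)) (vc P (cE b)) = conj (br (vc P a) (vc P b)) := by
    unfold KE.vc KF.br cE
    simp only [ComplexEmbedding.conjugate_coe_eq, map_sub, map_mul]
  rw [h, RCLike.norm_conj]

theorem rs_cE (a : Em K) : rs F (cE a) = ComplexEmbedding.conjugate (rs F a) := rfl

theorem cE_ne {a b : Em K} (h : a ≠ b) : cE a ≠ cE b := by
  obtain ⟨i, σ⟩ := a
  obtain ⟨j, τ⟩ := b
  intro h1
  apply h
  have h2 : i = j := congrArg Sigma.fst h1
  subst h2
  have h3 : ComplexEmbedding.conjugate σ = ComplexEmbedding.conjugate τ := by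
    simpa [cE] using h1
  have h4 := congrArg ComplexEmbedding.conjugate h3
  have h5 : ∀ σ : K i →+* ℂ, ComplexEmbedding.conjugate (ComplexEmbedding.conjugate σ) = σ := by
    intro σ
    ext x
    simp [ComplexEmbedding.conjugate]
  rw [h5, h5] at h4
  rw [h4]

theorem key (hDU : S_DU) (hCRD : S_CRD F K) (hNI : S_NIF F K) (hBAL : S_BAL) (e : s → ℕ)
    (he : ∀ i, 0 < e i) (h2e : ∀ i, 2 * e i ≤ ∑ j, finrank F (K j) * e j) (I : FU K) :
    ∃ C₁ A C' : ℝ, ∀ P : Al K × Al K, (∀ i, cn P i ≤ (I i : FI (K i))) → NDF F P →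
      0 < szF F (fun i => 2 * e i) (vc P) ∧
      ∃ (u : ∀ i, (𝓞 (K i))ˣ) (y : s → ℤ),
        (∀ a b : Em K, rs F a = rs F b → ‖br (vc (sm (un u) P) a) (vc (sm (un u) P) b)‖ ≤
          C₁ * Real.exp ((y a.1 : ℝ) + y b.1)) ∧
        (∀ i, 2 ≤ finrank F (K i) → -A ≤ (y i : ℝ)) ∧
        (∀ i j, i ≠ j → -A ≤ (y i : ℝ) + y j) ∧
        ∑ i, (finrank ℚ F : ℝ) * finrank F (K i) * e i * y i ≤
          (1 / 2) * Real.log (szF F (fun i => 2 * e i) (vc P)) + C' := by
  classical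
  obtain ⟨c, hc, hNI⟩ := hNI I
  choose Cu hCu0 hCu using fun i => hBAL (K i)
  obtain ⟨C₀, hC₀⟩ : ∃ C₀ : ℝ, C₀ = ∑ i, Cu i := ⟨_, rfl⟩
  have hC₀i : ∀ i, Cu i ≤ C₀ := fun i => by
    rw [hC₀]
    exact single_le_sum (f := Cu) (fun i _ => (hCu0 i).le) (mem_univ i)
  set Ne : ℝ := ∑ σ : Em K, (e σ.1 : ℝ) with hNe
  refine ⟨Real.exp (2 * C₀), |Real.log c|, Ne * Real.log 2 + Ne, fun P hP hnd => ?_⟩
  have hwpos : ∀ a b : Em K, a ≠ b → rs F a = rs F b → 0 < ‖br (vc P a) (vc P b)‖ :=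
    fun a b hab h => norm_pos_iff.2 (hnd a b hab h)
  have hDUw : ∀ w : F →+* ℂ, ∃ Λ : Ef F K w → ℝ, (∀ a, 0 < Λ a) ∧
      (∀ a b, a ≠ b → ‖br (vc P a.1) (vc P b.1)‖ ≤ Λ a * Λ b) ∧
      ∏ a, Λ a ^ (2 * e a.1.1) ≤ 2 ^ (2 * ∑ a : Ef F K w, e a.1.1) *
        hw (fun i => 2 * e i) (vc P) w := by
    intro w
    exact hDU (Ef F K w) (fun a => e a.1.1) (fun a => he a.1.1)
      (fun a => by rw [sum_EfN hCRD w e]; exact h2e a.1.1)
      (fun a b => ‖br (vc P a.1) (vc P b.1)‖) (fun a b => KF.norm_br_swap _ _)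
      (fun a b => norm_nonneg _)
      (fun a b hab => norm_pos_iff.2 (hnd.fib w a b hab)) _
      (fun m => le_hw (d := fun i => 2 * e i) (vc P) w m)
  choose Λ hΛ0 hΛ1 hΛ2 using hDUw
  have hHw : ∀ w : F →+* ℂ, 0 < hw (fun i => 2 * e i) (vc P) w := by
    intro w
    have hprodpos : 0 < ∏ a : Ef F K w, Λ w a ^ (2 * e a.1.1) :=
      prod_pos fun a _ => pow_pos (hΛ0 w a) _
    by_contra hcon
    push Not at hcon
    have h1 : (2 : ℝ) ^ (2 * ∑ i : Ef F K w, e i.1.1) *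
        hw (fun i => 2 * e i) (vc P) w ≤ 0 :=
      mul_nonpos_of_nonneg_of_nonpos (by positivity) hcon
    have := hΛ2 w
    linarith
  have hHpos : 0 < szF F (fun i => 2 * e i) (vc P) := prod_pos fun w _ => hHw w
  refine ⟨hHpos, ?_⟩
  obtain ⟨ζ, hζdef⟩ : ∃ ζ : Em K → ℝ, ζ = fun a => Real.log (Λ (rs F a) ⟨a, rfl⟩) := ⟨_, rfl⟩
  have hζe : ∀ (w : F →+* ℂ) (a : Ef F K w), Real.log (Λ w a) = ζ a.1 := by
    rintro w ⟨a, rfl⟩
    rw [hζdef]
  have hζ : ∀ a b, a ≠ b → rs F a = rs F b → Real.log ‖br (vc P a) (vc P b)‖ ≤ ζ a + ζ b := by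
    intro a b hab h
    obtain ⟨A1, hA1⟩ : ∃ A1 : Ef F K (rs F a), A1.1 = a := ⟨⟨a, rfl⟩, rfl⟩
    obtain ⟨B1, hB1⟩ : ∃ B1 : Ef F K (rs F a), B1.1 = b := ⟨⟨b, h.symm⟩, rfl⟩
    have h1 := hΛ1 (rs F a) A1 B1 (fun h2 => hab (by rw [← hA1, ← hB1, h2]))
    have h2 := hζe (rs F a) A1
    have h3 := hζe (rs F a) B1
    rw [hA1] at h2
    rw [hB1] at h3
    rw [hA1, hB1] at h1
    rw [← h2, ← h3, ← Real.log_mul (hΛ0 _ _).ne' (hΛ0 _ _).ne']
    exact Real.log_le_log (hwpos a b hab h) h1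
  obtain ⟨zb, hzb⟩ : ∃ zb : s → ℝ, zb = fun i =>
    (∑ σ : K i →+* ℂ, ζ ⟨i, σ⟩) / finrank ℚ (K i) := ⟨_, rfl⟩
  have hcard : ∀ i, Fintype.card (K i →+* ℂ) = finrank ℚ (K i) := fun i => KF.card_emb
  have hnpos : ∀ i, (1 : ℝ) ≤ finrank ℚ (K i) := fun i => by
    exact_mod_cast (finrank_pos (R := ℚ) (M := K i))
  have hSum : ∀ i, ∑ σ : K i →+* ℂ, ζ ⟨i, σ⟩ = finrank ℚ (K i) * zb i := by
    intro i
    have := hnpos i
    rw [hzb]
    simp only
    field_simp
  have hlog : -|Real.log c| ≤ Real.log c := neg_abs_le _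
  have habs : 0 ≤ |Real.log c| := abs_nonneg _
  -- the symmetric version
  obtain ⟨η, hη⟩ : ∃ η : Em K → ℝ, η = fun a => (ζ a + ζ (cE a)) / 2 := ⟨_, rfl⟩
  have hηb : ∀ a b, a ≠ b → rs F a = rs F b → Real.log ‖br (vc P a) (vc P b)‖ ≤ η a + η b := by
    intro a b hab h
    have h1 := hζ a b hab h
    have h2 := hζ (cE a) (cE b) (cE_ne hab) (by rw [rs_cE, rs_cE, h])
    rw [norm_br_cE] at h2
    rw [hη]
    simp only
    linarith
  have hcc : ∀ (i : s) (σ : K i →+* ℂ),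
      ComplexEmbedding.conjugate (ComplexEmbedding.conjugate σ) = σ := by
    intro i σ
    ext x
    simp [ComplexEmbedding.conjugate]
  have hηc : ∀ (i : s) (σ : K i →+* ℂ), η ⟨i, ComplexEmbedding.conjugate σ⟩ = η ⟨i, σ⟩ := by
    intro i σ
    rw [hη]
    unfold cE
    simp only
    rw [hcc]
    ring
  have hηS : ∀ i, ∑ σ : K i →+* ℂ, η ⟨i, σ⟩ = finrank ℚ (K i) * zb i := by
    intro i
    have h1 : ∑ σ : K i →+* ℂ, ζ ⟨i, ComplexEmbedding.conjugate σ⟩ =
        ∑ σ : K i →+* ℂ, ζ ⟨i, σ⟩ :=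
      Equiv.sum_comp (KF.cj (K := K i)) (fun σ => ζ ⟨i, σ⟩)
    rw [hη]
    unfold cE
    simp only
    rw [← sum_div, sum_add_distrib, h1, hSum]
    ring
  choose u hu using fun i => hCu i (fun σ => η ⟨i, σ⟩) (hηc i)
  have hu' : ∀ a : Em K, Real.log ‖a.2 (un u a.1)‖ + η a ≤ zb a.1 + C₀ := by
    rintro ⟨i, σ⟩
    have h1 := hu i σ
    rw [hηS, mul_div_cancel_left₀ _ (by have := hnpos i; positivity)] at h1
    have h2 := hC₀i i
    have h3 : un u i = ((u i : 𝓞 (K i)) : K i) := rfl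
    simp only
    rw [h3]
    linarith
  -- block sums
  have hblock : ∀ i j : s, ∑ q ∈ (univ : Finset ((K i →+* ℂ) × (K j →+* ℂ))).filter (fun q =>
      (⟨i, q.1⟩ : Em K) ≠ ⟨j, q.2⟩ ∧ rs F (⟨i, q.1⟩ : Em K) = rs F (⟨j, q.2⟩ : Em K)),
      ζ ⟨i, q.1⟩ = (finrank F (K j) - (if i = j then 1 else 0)) * (finrank ℚ (K i) * zb i) := by
    intro i j
    rw [sum_filter, ← univ_product_univ, sum_product, ← hSum, mul_sum]
    refine sum_congr rfl fun σ _ => ?_
    simp only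
    rw [← sum_filter, sum_const, nsmul_eq_mul]
    congr 1
    have h1 := cnt hCRD (⟨i, σ⟩ : Em K) j
    simp only at h1
    rw [← h1]
    push_cast
    ring
  have hblock' : ∀ i j : s, ∑ q ∈ (univ : Finset ((K i →+* ℂ) × (K j →+* ℂ))).filter (fun q =>
      (⟨i, q.1⟩ : Em K) ≠ ⟨j, q.2⟩ ∧ rs F (⟨i, q.1⟩ : Em K) = rs F (⟨j, q.2⟩ : Em K)),
      ζ ⟨j, q.2⟩ = (finrank F (K i) - (if i = j then 1 else 0)) * (finrank ℚ (K j) * zb j) := by
    intro i j
    rw [sum_filter, ← univ_product_univ, sum_product_right, ← hSum, mul_sum]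
    refine sum_congr rfl fun σ _ => ?_
    simp only
    rw [← sum_filter, sum_const, nsmul_eq_mul]
    congr 1
    have h1 := cnt hCRD (⟨j, σ⟩ : Em K) i
    simp only at h1
    rw [← h1]
    have h2 : (univ : Finset (K i →+* ℂ)).filter (fun τ => (⟨i, τ⟩ : Em K) ≠ ⟨j, σ⟩ ∧
        rs F (⟨i, τ⟩ : Em K) = rs F (⟨j, σ⟩ : Em K)) =
        (univ : Finset (K i →+* ℂ)).filter (fun τ => (⟨j, σ⟩ : Em K) ≠ ⟨i, τ⟩ ∧
        rs F (⟨j, σ⟩ : Em K) = rs F (⟨i, τ⟩ : Em K)) := by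
      refine filter_congr fun τ _ => ?_
      rw [ne_comm, eq_comm (a := rs F (⟨i, τ⟩ : Em K))]
    rw [h2]
    by_cases hij : i = j
    · rw [if_pos hij, if_pos hij.symm]
      push_cast
      ring
    · rw [if_neg hij, if_neg (fun h => hij h.symm)]
      push_cast
      ring
  have hdF : ∀ i, (finrank ℚ (K i) : ℝ) = finrank ℚ F * finrank F (K i) := fun i => by
    rw [hCRD.2.2 i]
    push_cast
    rfl
  have hd1 : (1 : ℝ) ≤ finrank ℚ F := by exact_mod_cast (finrank_pos (R := ℚ) (M := F))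
  have hfpos : ∀ i, 1 ≤ finrank F (K i) := by
    intro i
    by_contra hcon
    have h2 : finrank F (K i) = 0 := by omega
    have h3 := hCRD.2.2 i
    rw [h2, mul_zero] at h3
    exact (finrank_pos (R := ℚ) (M := K i)).ne' h3
  have hfpos' : ∀ i, (1 : ℝ) ≤ finrank F (K i) := fun i => by exact_mod_cast hfpos i
  have key2 : ∀ i j : s, (1 : ℝ) ≤ finrank F (K j) - (if i = j then 1 else 0) →
      -|Real.log c| ≤ zb i + zb j := by
    intro i j hf2
    have h2 : Real.log c ≤ ∑ q ∈ (univ : Finset ((K i →+* ℂ) × (K j →+* ℂ))).filter (fun q =>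
        (⟨i, q.1⟩ : Em K) ≠ ⟨j, q.2⟩ ∧ rs F (⟨i, q.1⟩ : Em K) = rs F (⟨j, q.2⟩ : Em K)),
        (ζ ⟨i, q.1⟩ + ζ ⟨j, q.2⟩) := by
      refine (Real.log_le_log hc (hNI P hP hnd i j)).trans ?_
      rw [Real.log_prod fun q hq => ?_]
      · refine sum_le_sum fun q hq => ?_
        rw [mem_filter] at hq
        exact hζ _ _ hq.2.1 hq.2.2
      · rw [mem_filter] at hq
        exact (hwpos _ _ hq.2.1 hq.2.2).ne'
    rw [sum_add_distrib, hblock, hblock', hdF, hdF] at h2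
    have h3 : Real.log c ≤ (((finrank F (K j) : ℝ) - (if i = j then 1 else 0)) *
        (finrank ℚ F * finrank F (K i))) * (zb i + zb j) := by
      refine h2.trans (le_of_eq ?_)
      by_cases hij : i = j
      · subst hij
        ring
      · rw [if_neg hij]
        ring
    by_cases hz : 0 ≤ zb i + zb j
    · linarith
    · push Not at hz
      have h4 : 1 ≤ ((finrank F (K j) : ℝ) - (if i = j then 1 else 0)) *
          (finrank ℚ F * finrank F (K i)) :=
        one_le_mul_of_one_le_of_one_le hf2 (one_le_mul_of_one_le_of_one_le hd1 (hfpos' i))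
      have h5 := mul_le_mul_of_nonpos_right h4 hz.le
      linarith
  have hy1 : ∀ i, zb i ≤ (⌈zb i⌉ : ℝ) := fun i => Int.le_ceil _
  have hy2 : ∀ i, (⌈zb i⌉ : ℝ) ≤ zb i + 1 := fun i => (Int.ceil_lt_add_one _).le
  refine ⟨u, fun i => ⌈zb i⌉, ?_, ?_, ?_, ?_⟩
  · intro a b hab
    by_cases h : a = b
    · subst h
      rw [KF.br_self, norm_zero]
      positivity
    · have h1 : br (vc (sm (un u) P) a) (vc (sm (un u) P) b) =
          a.2 (un u a.1) * b.2 (un u b.1) * br (vc P a) (vc P b) := by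
        rw [vc_sm]
        unfold KF.br
        simp only [Prod.smul_fst, Prod.smul_snd, smul_eq_mul]
        ring
      have hu0 : ∀ a : Em K, 0 < ‖a.2 (un u a.1)‖ := fun a =>
        norm_pos_iff.2 ((_root_.map_ne_zero _).2 (Y977.KE.un_ne u a.1))
      rw [h1, norm_mul, norm_mul]
      have h2 : 0 < ‖a.2 (un u a.1)‖ * ‖b.2 (un u b.1)‖ * ‖br (vc P a) (vc P b)‖ :=
        mul_pos (mul_pos (hu0 a) (hu0 b)) (hwpos a b h hab)
      rw [← Real.exp_log h2, ← Real.exp_add]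
      refine Real.exp_le_exp.2 ?_
      rw [Real.log_mul (mul_pos (hu0 a) (hu0 b)).ne' (hwpos a b h hab).ne',
        Real.log_mul (hu0 a).ne' (hu0 b).ne']
      have h3 := hηb a b h hab
      have h4 := hu' a
      have h5 := hu' b
      have h6 := hy1 a.1
      have h7 := hy1 b.1
      linarith
  · intro i hi
    have h1 : (1 : ℝ) ≤ finrank F (K i) - (if i = i then 1 else 0) := by
      rw [if_pos rfl]
      have : (2 : ℝ) ≤ finrank F (K i) := by exact_mod_cast hi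
      linarith
    have h2 := key2 i i h1
    have h3 := hy1 i
    linarith
  · intro i j hij
    have h1 : (1 : ℝ) ≤ finrank F (K j) - (if i = j then 1 else 0) := by
      rw [if_neg hij, sub_zero]
      exact hfpos' j
    have h2 := key2 i j h1
    have h3 := hy1 i
    have h4 := hy1 j
    linarith
  · have hlogH : Real.log (szF F (fun i => 2 * e i) (vc P)) =
        ∑ w : F →+* ℂ, Real.log (hw (fun i => 2 * e i) (vc P) w) := by
      rw [szF_eq, Real.log_prod fun w _ => (hHw w).ne']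
    have h8 : 2 * ∑ a : Em K, (e a.1 : ℝ) * ζ a ≤ 2 * Ne * Real.log 2 +
        Real.log (szF F (fun i => 2 * e i) (vc P)) := by
      have h9 : ∀ w : F →+* ℂ, 2 * ∑ a : Ef F K w, (e a.1.1 : ℝ) * ζ a.1 ≤
          2 * (∑ a : Ef F K w, (e a.1.1 : ℝ)) * Real.log 2 +
          Real.log (hw (fun i => 2 * e i) (vc P) w) := by
        intro w
        have hprodpos : 0 < ∏ a : Ef F K w, Λ w a ^ (2 * e a.1.1) :=
          prod_pos fun a _ => pow_pos (hΛ0 w a) _
        have h9 := Real.log_le_log hprodpos (hΛ2 w)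
        rw [Real.log_prod fun a _ => (pow_pos (hΛ0 w a) _).ne',
          Real.log_mul (by positivity) (hHw w).ne', Real.log_pow] at h9
        have h10 : ∑ a : Ef F K w, Real.log (Λ w a ^ (2 * e a.1.1)) =
            2 * ∑ a : Ef F K w, (e a.1.1 : ℝ) * ζ a.1 := by
          rw [mul_sum]
          refine sum_congr rfl fun a _ => ?_
          rw [Real.log_pow, ← hζe]
          push_cast
          ring
        rw [h10] at h9
        refine h9.trans (le_of_eq ?_)
        push_cast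
        rfl
      have h11 := sum_le_sum fun (w : F →+* ℂ) (_ : w ∈ univ) => h9 w
      rw [sum_add_distrib, ← mul_sum, ← sum_mul, ← mul_sum,
        sum_fib (fun a => (e a.1 : ℝ) * ζ a), sum_fib (fun a : Em K => (e a.1 : ℝ)),
        ← hlogH] at h11
      exact h11
    have h12 : ∑ a : Em K, (e a.1 : ℝ) * ζ a =
        ∑ i, (finrank ℚ F : ℝ) * finrank F (K i) * e i * zb i := by
      rw [Fintype.sum_sigma]
      refine sum_congr rfl fun i _ => ?_
      change ∑ σ : K i →+* ℂ, (e i : ℝ) * ζ ⟨i, σ⟩ = _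
      rw [← mul_sum, hSum, hdF]
      ring
    have h13 : Ne = ∑ i, (finrank ℚ F : ℝ) * finrank F (K i) * e i := by
      rw [hNe, Fintype.sum_sigma]
      refine sum_congr rfl fun i _ => ?_
      change ∑ _σ : K i →+* ℂ, (e i : ℝ) = _
      rw [sum_const, nsmul_eq_mul, Finset.card_univ, hcard, hdF]
    have h14 : ∑ i, (finrank ℚ F : ℝ) * finrank F (K i) * e i * (⌈zb i⌉ : ℝ) ≤
        ∑ i, (finrank ℚ F : ℝ) * finrank F (K i) * e i * zb i + Ne := by
      rw [h13, ← sum_add_distrib]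
      refine sum_le_sum fun i _ => ?_
      have h15 : 0 ≤ (finrank ℚ F : ℝ) * finrank F (K i) * e i := by positivity
      have := mul_le_mul_of_nonneg_left (hy2 i) h15
      linarith
    rw [← h12] at h14
    linarith

end

end Pool.Agent.Y714.KH
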